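import Mathlib

set_option autoImplicit false

/-! # Separated sets in spaces of small dimension, in the `l_1` norm -/

namespace Pool.Agent.K4H91.CP

open MeasureTheory Module Metric Set Function
open scoped ENNReal Topology

/-- The volume bound for separated sets. -/
theorem card_le_of_sep {E : Type*} [NormedAddCommGroup E] [NormedSpace ℝ E]
    [FiniteDimensional ℝ E] (R : ℝ) (hR : 0 ≤ R) (s : Finset E) (hs : ∀ c ∈ s, ‖c‖ ≤ R)
    (h : ∀ c ∈ s, ∀ d ∈ s, c ≠ d → 1 ≤ ‖c - d‖) :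
    (s.card : ℝ) ≤ (2 * R + 1) ^ finrank ℝ E := by
  borelize E
  let μ : Measure E := Measure.addHaar
  let δ : ℝ := (1 : ℝ) / 2
  let ρ : ℝ := R + 1 / 2
  have ρpos : 0 < ρ := by positivity
  set A := ⋃ c ∈ s, ball (c : E) δ with hA
  have D : Set.Pairwise (s : Set E) (Disjoint on fun c => ball (c : E) δ) := by
    rintro c hc d hd hcd
    apply ball_disjoint_ball
    rw [dist_eq_norm]
    convert! h c hc d hd hcd
    norm_num
  have A_subset : A ⊆ ball (0 : E) ρ := by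
    refine iUnion₂_subset fun x hx => ?_
    apply ball_subset_ball'
    calc
      δ + dist x 0 ≤ δ + R := by rw [dist_zero_right]; exact add_le_add le_rfl (hs x hx)
      _ = ρ := by simp only [δ, ρ]; ring
  have I :
    (s.card : ℝ≥0∞) * ENNReal.ofReal (δ ^ finrank ℝ E) * μ (ball 0 1) ≤
      ENNReal.ofReal (ρ ^ finrank ℝ E) * μ (ball 0 1) :=
    calc
      (s.card : ℝ≥0∞) * ENNReal.ofReal (δ ^ finrank ℝ E) * μ (ball 0 1) = μ A := by
        rw [hA, measure_biUnion_finset D fun c _ => measurableSet_ball]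
        have I : 0 < δ := by norm_num [δ]
        simp only [μ.addHaar_ball_of_pos _ I]
        simp only [Finset.sum_const, nsmul_eq_mul, mul_assoc]
      _ ≤ μ (ball (0 : E) ρ) := measure_mono A_subset
      _ = ENNReal.ofReal (ρ ^ finrank ℝ E) * μ (ball 0 1) := by
        simp only [μ.addHaar_ball_of_pos _ ρpos]
  have J : (s.card : ℝ≥0∞) * ENNReal.ofReal (δ ^ finrank ℝ E) ≤ ENNReal.ofReal (ρ ^ finrank ℝ E) :=
    (ENNReal.mul_le_mul_iff_left (measure_ball_pos _ _ zero_lt_one).ne' measure_ball_lt_top.ne).1 I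
  have J2 : (s.card : ℝ) * δ ^ finrank ℝ E ≤ ρ ^ finrank ℝ E := by
    have := ENNReal.toReal_le_of_le_ofReal (pow_nonneg ρpos.le _) J
    simpa [δ, ENNReal.toReal_mul] using this
  have e : (2 * R + 1 : ℝ) ^ finrank ℝ E = ρ ^ finrank ℝ E / δ ^ finrank ℝ E := by
    rw [← div_pow]
    congr 1
    simp only [ρ, δ]
    ring
  rw [e, le_div_iff₀ (by positivity)]
  exact J2

/-- Separated vectors in the span of `d` vectors. -/
theorem pack {T ι : Type} [Fintype T] (F : Finset ι) (d : ℕ) (a : Fin d → T → ℝ)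
    (b : ι → Fin d → ℝ) (u : ι → T → ℝ) (hu : ∀ s t, u s t = ∑ i, b s i * a i t)
    (R δ : ℝ) (hδ : 0 < δ) (hR0 : 0 ≤ R) (hR : ∀ s ∈ F, ∑ t, |u s t| ≤ R * δ)
    (hsep : ∀ s ∈ F, ∀ s' ∈ F, s ≠ s' → δ ≤ ∑ t, |u s t - u s' t|) :
    (F.card : ℝ) ≤ (2 * R + 1) ^ d := by
  classical
  let a' : Fin d → PiLp 1 (fun _ : T => ℝ) := fun i => WithLp.toLp 1 (a i)
  let W : Submodule ℝ (PiLp 1 (fun _ : T => ℝ)) := Submodule.span ℝ (Set.range a')
  let x' : ι → PiLp 1 (fun _ : T => ℝ) := fun s => WithLp.toLp 1 (fun t => δ⁻¹ * u s t)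
  have hx' : ∀ s, x' s ∈ W := by
    intro s
    have : x' s = ∑ i, (δ⁻¹ * b s i) • a' i := by
      ext t
      simp only [x', a', WithLp.ofLp_sum, WithLp.ofLp_smul, Finset.sum_apply,
        Pi.smul_apply, smul_eq_mul, hu, Finset.mul_sum]
      refine Finset.sum_congr rfl fun i _ => ?_
      ring
    rw [this]
    exact Submodule.sum_mem _ fun i _ => Submodule.smul_mem _ _
      (Submodule.subset_span (Set.mem_range_self i))
  let x : ι → W := fun s => ⟨x' s, hx' s⟩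
  have hnorm : ∀ s, ‖x s‖ = δ⁻¹ * ∑ t, |u s t| := by
    intro s
    have : ‖x s‖ = ‖x' s‖ := rfl
    rw [this, PiLp.norm_eq_of_L1, Finset.mul_sum]
    refine Finset.sum_congr rfl fun t _ => ?_
    simp only [x', Real.norm_eq_abs, abs_mul, abs_inv, abs_of_pos hδ]
  have hnorm2 : ∀ s s', ‖x s - x s'‖ = δ⁻¹ * ∑ t, |u s t - u s' t| := by
    intro s s'
    have : ‖x s - x s'‖ = ‖x' s - x' s'‖ := rfl
    rw [this, PiLp.norm_eq_of_L1, Finset.mul_sum]
    refine Finset.sum_congr rfl fun t _ => ?_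
    simp only [x', PiLp.sub_apply, ← mul_sub, Real.norm_eq_abs, abs_mul, abs_inv,
      abs_of_pos hδ]
  have hinj : Set.InjOn x F := by
    intro s hs s' hs' h
    by_contra hne
    have h1 := hsep s hs s' hs' hne
    have h2 := hnorm2 s s'
    rw [h, sub_self, norm_zero] at h2
    have h3 : 0 < δ⁻¹ * ∑ t, |u s t - u s' t| := by
      have : 0 < ∑ t, |u s t - u s' t| := lt_of_lt_of_le hδ h1
      positivity
    linarith
  have h1 := card_le_of_sep (E := W) R hR0 (F.image x) (by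
    intro c hc
    obtain ⟨s, hs, rfl⟩ := Finset.mem_image.1 hc
    rw [hnorm, inv_mul_le_iff₀ hδ, mul_comm]
    exact hR s hs) (by
    intro c hc c' hc' hne
    obtain ⟨s, hs, rfl⟩ := Finset.mem_image.1 hc
    obtain ⟨s', hs', rfl⟩ := Finset.mem_image.1 hc'
    rw [hnorm2]
    have h2 := hsep s hs s' hs' (fun h => hne (by rw [h]))
    rw [inv_mul_eq_div, le_div_iff₀ hδ]
    linarith)
  rw [Finset.card_image_of_injOn hinj] at h1
  have h2 : finrank ℝ W ≤ d := by
    have := finrank_range_le_card (R := ℝ) a'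
    rw [Fintype.card_fin] at this
    exact this
  calc (F.card : ℝ) ≤ (2 * R + 1) ^ finrank ℝ W := h1
    _ ≤ (2 * R + 1) ^ d := pow_le_pow_right₀ (by linarith) h2

/-- A net. -/
theorem net {T ι : Type} [Fintype T] (S : Finset ι) (d : ℕ) (a : Fin d → T → ℝ)
    (b : ι → Fin d → ℝ) (u : ι → T → ℝ) (hu : ∀ s t, u s t = ∑ i, b s i * a i t)
    (R δ : ℝ) (hδ : 0 < δ) (hR0 : 0 ≤ R) (hR : ∀ s ∈ S, ∑ t, |u s t| ≤ R * δ) :
    ∃ F : Finset ι, F ⊆ S ∧ (F.card : ℝ) ≤ (2 * R + 1) ^ d ∧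
      ∀ s ∈ S, ∃ s' ∈ F, ∑ t, |u s t - u s' t| < δ := by
  classical
  obtain ⟨Q, hQ⟩ : ∃ Q : Finset ι → Prop, ∀ F, Q F ↔
      ∀ s ∈ F, ∀ s' ∈ F, s ≠ s' → δ ≤ ∑ t, |u s t - u s' t| := ⟨_, fun _ => Iff.rfl⟩
  obtain ⟨F, hF, hmax⟩ := Finset.exists_max_image (S.powerset.filter Q)
    Finset.card ⟨∅, by rw [Finset.mem_filter, hQ]; simp⟩
  rw [Finset.mem_filter, Finset.mem_powerset, hQ] at hF
  refine ⟨F, hF.1, pack F d a b u hu R δ hδ hR0 (fun s hs => hR s (hF.1 hs)) hF.2,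
    fun s hs => ?_⟩
  by_contra hcon
  push Not at hcon
  have hsF : s ∉ F := by
    intro h
    have := hcon s h
    simp at this
    linarith
  have h1 := hmax (insert s F) (by
    rw [Finset.mem_filter, Finset.mem_powerset, hQ]
    refine ⟨Finset.insert_subset hs hF.1, fun x hx y hy hne => ?_⟩
    rw [Finset.mem_insert] at hx hy
    rcases hx with rfl | hx <;> rcases hy with rfl | hy
    · exact absurd rfl hne
    · exact hcon y hy
    · have := hcon x hx
      simp_rw [abs_sub_comm (u x _)]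
      exact this
    · exact hF.2 x hx y hy hne)
  rw [Finset.card_insert_of_notMem hsF] at h1
  omega

end Pool.Agent.K4H91.CP
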