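import Pool.Agent.TH697.Apsp.Cut
import Pool.Agent.K4H91.CP.Pack

set_option autoImplicit false

/-! # The corruption bound for nonnegative matrices of small rank -/

namespace Pool.Agent.K4H91.CP

open Finset Pool.Agent.TH697.Apsp

variable {k : ℕ}

/-- the weight of the triples which are cut by `s` -/
noncomputable def O (u : Tr k → ℝ) (s : Sd k) : ℝ := ∑ t, u t * (if One t s then (1 : ℝ) else 0)

theorem O_nonneg (u : Tr k → ℝ) (hu0 : ∀ t, 0 ≤ u t) (s : Sd k) : 0 ≤ O u s :=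
  sum_nonneg fun t _ => mul_nonneg (hu0 t) (by split_ifs <;> norm_num)

theorem O_sub_le (u v : Tr k → ℝ) (s : Sd k) : O u s - O v s ≤ ∑ t, |u t - v t| := by
  unfold O
  rw [← sum_sub_distrib]
  refine sum_le_sum fun t _ => ?_
  rw [← sub_mul]
  split_ifs
  · rw [mul_one]; exact le_abs_self _
  · rw [mul_zero]; exact abs_nonneg _

/-- the tail bound -/
theorem tail (u : Tr k → ℝ) (hu0 : ∀ t, 0 ≤ u t) (hu1 : ∀ t, u t ≤ 1) (l : ℕ)
    (hl : 8 * (l : ℝ) ^ 3 ≤ ∑ t, u t) (hpos : 0 < ∑ t, u t) :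
    ∑ s : Sd k, (if 4 / 5 * ∑ t, u t ≤ O u s then (1 : ℝ) else 0) ≤
      (25 / 32) ^ l * Fintype.card (Sd k) := by
  obtain ⟨U, hUdef⟩ : ∃ U : ℝ, U = ∑ t, u t := ⟨_, rfl⟩
  have hmom := moment u hu0 hu1 l
  rw [← hUdef] at hmom hl hpos ⊢
  have hprod : ∏ j ∈ range l, (U / 2 + (j : ℝ) ^ 3) ≤ (5 / 8 * U) ^ l := by
    calc ∏ j ∈ range l, (U / 2 + (j : ℝ) ^ 3) ≤ ∏ _j ∈ range l, (5 / 8 * U) := by
          refine prod_le_prod (fun j _ => by positivity) fun j hj => ?_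
          have h1 : (j : ℝ) ≤ l := by exact_mod_cast (mem_range.1 hj).le
          have h2 : (j : ℝ) ^ 3 ≤ (l : ℝ) ^ 3 := by gcongr
          linarith
      _ = (5 / 8 * U) ^ l := by simp
  have hpt : ∀ s, (if 4 / 5 * U ≤ O u s then (1 : ℝ) else 0) ≤ (5 / (4 * U)) ^ l * O u s ^ l := by
    intro s
    have h1 := O_nonneg u hu0 s
    split_ifs with h
    · rw [← mul_pow]
      refine one_le_pow₀ ?_
      rw [div_mul_eq_mul_div, le_div_iff₀ (by positivity)]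
      linarith
    · positivity
  calc _ ≤ ∑ s, (5 / (4 * U)) ^ l * O u s ^ l := sum_le_sum fun s _ => hpt s
    _ = (5 / (4 * U)) ^ l * ∑ s, O u s ^ l := by rw [mul_sum]
    _ ≤ (5 / (4 * U)) ^ l * ((5 / 8 * U) ^ l * Fintype.card (Sd k)) := by
        refine mul_le_mul_of_nonneg_left ?_ (by positivity)
        refine hmom.trans ?_
        exact mul_le_mul_of_nonneg_right hprod (Nat.cast_nonneg _)
    _ = (25 / 32) ^ l * Fintype.card (Sd k) := by
        have : (5 / (4 * U)) ^ l * (5 / 8 * U) ^ l = (25 / 32) ^ l := by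
          rw [← mul_pow]
          congr 1
          field_simp
          norm_num
        rw [← mul_assoc, this]

/-! ## the scales -/

/-- the moment used for the scale `j` -/
def lj (j : ℕ) : ℕ := if j < 3 then 0 else 2 ^ (j / 3 - 1)

theorem lj_le (j : ℕ) : 8 * (lj j) ^ 3 ≤ 2 ^ j := by
  unfold lj
  split_ifs with h
  · simp
  · obtain ⟨i, hi⟩ : ∃ i, j / 3 = i + 1 := ⟨j / 3 - 1, by omega⟩
    rw [hi, Nat.add_sub_cancel]
    calc 8 * (2 ^ i) ^ 3 = 2 ^ (3 * (i + 1)) := by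
          rw [← pow_mul, show 3 * (i + 1) = i * 3 + 3 by ring, pow_add]
          ring
      _ ≤ 2 ^ j := Nat.pow_le_pow_right (by norm_num) (by omega)

/-- the sum over three scales -/
theorem three (I : ℕ) (hI : 1 ≤ I) :
    ∑ j ∈ range (3 * (I + 1)), (2 : ℝ) ^ (j + 1) * (25 / 32) ^ (lj j) =
      ∑ j ∈ range (3 * I), (2 : ℝ) ^ (j + 1) * (25 / 32) ^ (lj j) +
        14 * 8 ^ I * (25 / 32) ^ (2 ^ (I - 1)) := by
  rw [show 3 * (I + 1) = 3 * I + 1 + 1 + 1 by ring, sum_range_succ, sum_range_succ, sum_range_succ]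
  have e0 : lj (3 * I) = 2 ^ (I - 1) := by
    unfold lj
    rw [if_neg (by omega), show 3 * I / 3 = I by omega]
  have e1 : lj (3 * I + 1) = 2 ^ (I - 1) := by
    unfold lj
    rw [if_neg (by omega), show (3 * I + 1) / 3 = I by omega]
  have e2 : lj (3 * I + 1 + 1) = 2 ^ (I - 1) := by
    unfold lj
    rw [if_neg (by omega), show (3 * I + 1 + 1) / 3 = I by omega]
  rw [e0, e1, e2]
  have e3 : (2 : ℝ) ^ (3 * I + 1) = 2 * 8 ^ I := by
    rw [pow_succ, pow_mul]; norm_num; ring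
  have e4 : (2 : ℝ) ^ (3 * I + 1 + 1) = 4 * 8 ^ I := by
    rw [pow_succ, e3]; ring
  have e5 : (2 : ℝ) ^ (3 * I + 1 + 1 + 1) = 8 * 8 ^ I := by
    rw [pow_succ, e4]; ring
  rw [e3, e4, e5]
  ring

theorem inv (i : ℕ) :
    ∑ j ∈ range (3 * (i + 6)), (2 : ℝ) ^ (j + 1) * (25 / 32) ^ (lj j) +
      2 * (14 * 8 ^ (i + 6) * (25 / 32) ^ (2 ^ (i + 5))) ≤ 23000 := by
  induction i with
  | zero =>
    have h1 := three 5 (by norm_num)
    have h2 := three 4 (by norm_num)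
    have h3 := three 3 (by norm_num)
    have h4 := three 2 (by norm_num)
    have h5 := three 1 (by norm_num)
    have h6 : ∑ j ∈ range (3 * 1), (2 : ℝ) ^ (j + 1) * (25 / 32) ^ (lj j) = 14 := by
      norm_num [sum_range_succ, lj]
    rw [show 3 * (0 + 6) = 3 * (5 + 1) by norm_num, h1, show 3 * 5 = 3 * (4 + 1) by norm_num, h2,
      show 3 * 4 = 3 * (3 + 1) by norm_num, h3, show 3 * 3 = 3 * (2 + 1) by norm_num, h4,
      show 3 * 2 = 3 * (1 + 1) by norm_num, h5, h6]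
    norm_num
  | succ i ih =>
    have h1 := three (i + 6) (by omega)
    rw [show i + 6 - 1 = i + 5 by omega] at h1
    rw [show i + 1 + 6 = i + 6 + 1 by ring, h1]
    obtain ⟨q, hq⟩ : ∃ q : ℝ, q = (25 / 32) ^ (2 ^ (i + 5)) := ⟨_, rfl⟩
    obtain ⟨g, hg⟩ : ∃ g : ℝ, g = (8 : ℝ) ^ (i + 6) := ⟨_, rfl⟩
    have hq0 : 0 ≤ q := by rw [hq]; positivity
    have hg0 : 0 ≤ g := by rw [hg]; positivity
    have hq1 : 16 * q ≤ 1 := by
      have : q ≤ (25 / 32) ^ 32 := by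
        rw [hq]
        apply pow_le_pow_of_le_one (by norm_num) (by norm_num)
        calc 32 = 2 ^ 5 := by norm_num
          _ ≤ 2 ^ (i + 5) := Nat.pow_le_pow_right (by norm_num) (by omega)
      have h2 : (25 / 32 : ℝ) ^ 32 ≤ 1 / 16 := by norm_num
      linarith
    have e1 : (25 / 32 : ℝ) ^ (2 ^ (i + 1 + 5)) = q * q := by
      rw [hq, ← pow_two, ← pow_mul]
      congr 1
    have e2 : (8 : ℝ) ^ (i + 6 + 1) = 8 * g := by rw [hg, pow_succ]; ring
    rw [e1, e2]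
    rw [← hq, ← hg] at ih ⊢
    have h3 : g * q * (16 * q) ≤ g * q * 1 := mul_le_mul_of_nonneg_left hq1 (mul_nonneg hg0 hq0)
    nlinarith

theorem sum_num (J : ℕ) : ∑ j ∈ range J, (2 : ℝ) ^ (j + 1) * (25 / 32) ^ (lj j) ≤ 23000 := by
  have h1 : ∑ j ∈ range J, (2 : ℝ) ^ (j + 1) * (25 / 32) ^ (lj j) ≤
      ∑ j ∈ range (3 * (J + 6)), (2 : ℝ) ^ (j + 1) * (25 / 32) ^ (lj j) := by
    apply sum_le_sum_of_subset_of_nonneg
    · intro x hx
      rw [mem_range] at hx ⊢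
      omega
    · intro j _ _
      positivity
  have h2 := inv J
  have h3 : (0 : ℝ) ≤ 2 * (14 * 8 ^ (J + 6) * (25 / 32) ^ (2 ^ (J + 5))) := by positivity
  linarith

/-! ## the bound for matrices of rank `d` -/

theorem block (d : ℕ) (M : Tr k → Sd k → ℝ) (a : Fin d → Tr k → ℝ) (b : Sd k → Fin d → ℝ)
    (hM : ∀ t s, M t s = ∑ i, b s i * a i t) (h0 : ∀ t s, 0 ≤ M t s) (h1 : ∀ t s, M t s ≤ 1) :
    ∑ t, ∑ s, M t s * (6 * (if One t s then (1 : ℝ) else 0) - 5) ≤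
      23001 * 241 ^ d * Fintype.card (Sd k) := by
  classical
  obtain ⟨u, hu⟩ : ∃ u : Sd k → Tr k → ℝ, ∀ s t, u s t = M t s := ⟨_, fun _ _ => rfl⟩
  obtain ⟨L, hL⟩ : ∃ L : Sd k → ℝ, ∀ s, L s = ∑ t, u s t := ⟨_, fun _ => rfl⟩
  have hu0 : ∀ s t, 0 ≤ u s t := fun s t => by rw [hu]; exact h0 t s
  have hu1 : ∀ s t, u s t ≤ 1 := fun s t => by rw [hu]; exact h1 t s
  have habs : ∀ s, ∑ t, |u s t| = L s := fun s => by
    rw [hL]
    exact sum_congr rfl fun t _ => abs_of_nonneg (hu0 s t)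
  -- nets
  have hnet : ∀ j : ℕ, ∃ F : Finset (Sd k),
      F ⊆ univ.filter (fun s => (2 : ℝ) ^ j ≤ L s ∧ L s < 2 ^ (j + 1)) ∧
      (F.card : ℝ) ≤ 241 ^ d ∧
      ∀ s, (2 : ℝ) ^ j ≤ L s → L s < 2 ^ (j + 1) → ∃ s' ∈ F, ∑ t, |u s t - u s' t| < 2 ^ j / 60 := by
    intro j
    obtain ⟨F, hF1, hF2, hF3⟩ := net
      (univ.filter (fun s => (2 : ℝ) ^ j ≤ L s ∧ L s < 2 ^ (j + 1))) d a b u
      (fun s t => by rw [hu]; exact hM t s) 120 (2 ^ j / 60) (by positivity) (by norm_num) (by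
        intro s hs
        rw [mem_filter] at hs
        rw [habs]
        have h3 := hs.2.2
        rw [pow_succ] at h3
        linarith)
    refine ⟨F, hF1, ?_, fun s hs1 hs2 => hF3 s (by
      rw [mem_filter]; exact ⟨mem_univ _, hs1, hs2⟩)⟩
    refine hF2.trans (le_of_eq ?_)
    norm_num
  choose F hF1 hF2 hF3 using hnet
  obtain ⟨J, hJ⟩ : ∃ J : ℕ, J = Fintype.card (Tr k) := ⟨_, rfl⟩
  have hLJ : ∀ s, L s ≤ J := by
    intro s
    rw [hL, hJ]
    calc ∑ t, u s t ≤ ∑ _t : Tr k, (1 : ℝ) := sum_le_sum fun t _ => hu1 s t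
      _ = _ := by simp
  -- the columns
  obtain ⟨ind, hind⟩ : ∃ ind : Sd k → Sd k → ℝ, ∀ s' s, ind s' s =
      (if 4 / 5 * ∑ t, u s' t ≤ O (u s') s then (1 : ℝ) else 0) := ⟨_, fun _ _ => rfl⟩
  have hind0 : ∀ s' s, 0 ≤ ind s' s := by
    intro s' s
    rw [hind]
    split_ifs <;> norm_num
  have hcol : ∀ s, ∑ t, u s t * (6 * (if One t s then (1 : ℝ) else 0) - 5) ≤
      1 + ∑ j ∈ range J, ∑ s' ∈ F j, 2 ^ (j + 1) * ind s' s := by
    intro s
    have e1 : ∑ t, u s t * (6 * (if One t s then (1 : ℝ) else 0) - 5) =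
        6 * O (u s) s - 5 * L s := by
      unfold O
      rw [hL, mul_sum, mul_sum, ← sum_sub_distrib]
      refine sum_congr rfl fun t _ => ?_
      ring
    have hOL : O (u s) s ≤ L s := by
      unfold O
      rw [hL]
      refine sum_le_sum fun t _ => ?_
      have := hu0 s t
      split_ifs <;> linarith
    have hL0 : 0 ≤ L s := by rw [hL]; exact sum_nonneg fun t _ => hu0 s t
    have hS0 : 0 ≤ ∑ j ∈ range J, ∑ s' ∈ F j, 2 ^ (j + 1) * ind s' s :=
      sum_nonneg fun j _ => sum_nonneg fun s' _ => mul_nonneg (by positivity) (hind0 _ _)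
    rw [e1]
    rcases lt_or_ge (L s) 1 with h | h
    · linarith
    rcases le_or_gt (6 * O (u s) s - 5 * L s) 0 with h6 | h6
    · linarith
    -- the scale of the column
    obtain ⟨j, hj1, hj2, hj3⟩ : ∃ j : ℕ, (2 : ℝ) ^ j ≤ L s ∧ L s < 2 ^ (j + 1) ∧ j < J := by
      have hfl : 1 ≤ ⌊L s⌋₊ := by
        rw [Nat.one_le_floor_iff]
        exact h
      have a1 : 2 ^ Nat.log 2 ⌊L s⌋₊ ≤ ⌊L s⌋₊ := Nat.pow_log_le_self 2 (by omega)
      have a2 : ⌊L s⌋₊ < 2 ^ (Nat.log 2 ⌊L s⌋₊ + 1) := Nat.lt_pow_succ_log_self (by norm_num) _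
      have a3 : (2 : ℝ) ^ Nat.log 2 ⌊L s⌋₊ ≤ L s := by
        calc (2 : ℝ) ^ Nat.log 2 ⌊L s⌋₊ = ((2 ^ Nat.log 2 ⌊L s⌋₊ : ℕ) : ℝ) := by push_cast; rfl
          _ ≤ (⌊L s⌋₊ : ℝ) := by exact_mod_cast a1
          _ ≤ L s := Nat.floor_le hL0
      refine ⟨Nat.log 2 ⌊L s⌋₊, a3, ?_, ?_⟩
      · have := (Nat.floor_lt hL0).1 a2
        push_cast at this
        exact this
      · have a4 : (2 : ℝ) ^ Nat.log 2 ⌊L s⌋₊ ≤ J := a3.trans (hLJ s)
        have a5 : 2 ^ Nat.log 2 ⌊L s⌋₊ ≤ J := by exact_mod_cast a4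
        exact lt_of_lt_of_le Nat.lt_two_pow_self a5
    obtain ⟨s', hs'1, hs'2⟩ := hF3 j s hj1 hj2
    have hs'3 := (mem_filter.1 (hF1 j hs'1)).2
    have b1 : O (u s) s - O (u s') s ≤ ∑ t, |u s t - u s' t| := O_sub_le _ _ _
    have b2 : L s' - L s ≤ ∑ t, |u s t - u s' t| := by
      rw [hL, hL, ← sum_sub_distrib]
      refine sum_le_sum fun t _ => ?_
      rw [abs_sub_comm]
      exact le_abs_self _
    have b3 : ind s' s = 1 := by
      rw [hind, if_pos]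
      rw [← hL]
      have := hs'3.1
      nlinarith
    have b4 : 2 ^ (j + 1) * ind s' s ≤ ∑ j ∈ range J, ∑ s' ∈ F j, 2 ^ (j + 1) * ind s' s := by
      refine le_trans ?_ (single_le_sum (f := fun j => ∑ s' ∈ F j, 2 ^ (j + 1) * ind s' s)
        (fun j _ => sum_nonneg fun s' _ => mul_nonneg (by positivity) (hind0 _ _))
        (mem_range.2 hj3))
      exact single_le_sum (f := fun s' => 2 ^ (j + 1) * ind s' s)
        (fun s' _ => mul_nonneg (by positivity) (hind0 _ _)) hs'1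
    rw [b3, mul_one] at b4
    linarith
  -- the sum of the indicators
  have htail : ∀ j, ∀ s' ∈ F j, ∑ s, ind s' s ≤ (25 / 32) ^ (lj j) * Fintype.card (Sd k) := by
    intro j s' hs'
    have h3 := (mem_filter.1 (hF1 j hs')).2
    rw [hL] at h3
    have h4 : (0 : ℝ) < 2 ^ j := by positivity
    have h5 : (8 : ℝ) * (lj j : ℝ) ^ 3 ≤ 2 ^ j := by exact_mod_cast lj_le j
    have := tail (u s') (hu0 s') (hu1 s') (lj j) (h5.trans h3.1) (lt_of_lt_of_le h4 h3.1)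
    simp only [hind]
    exact this
  have hc0 : (0 : ℝ) ≤ Fintype.card (Sd k) := Nat.cast_nonneg _
  calc ∑ t, ∑ s, M t s * (6 * (if One t s then (1 : ℝ) else 0) - 5)
      = ∑ s, ∑ t, u s t * (6 * (if One t s then (1 : ℝ) else 0) - 5) := by
        rw [sum_comm]
        simp only [hu]
    _ ≤ ∑ s, (1 + ∑ j ∈ range J, ∑ s' ∈ F j, 2 ^ (j + 1) * ind s' s) :=
        sum_le_sum fun s _ => hcol s
    _ = (Fintype.card (Sd k) : ℝ) + ∑ j ∈ range J, ∑ s' ∈ F j, 2 ^ (j + 1) * ∑ s, ind s' s := by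
        rw [sum_add_distrib]
        congr 1
        · simp
        · rw [sum_comm]
          refine sum_congr rfl fun j _ => ?_
          rw [sum_comm]
          refine sum_congr rfl fun s' _ => ?_
          rw [mul_sum]
    _ ≤ (Fintype.card (Sd k) : ℝ) + ∑ j ∈ range J, ∑ _s' ∈ F j,
          (2 : ℝ) ^ (j + 1) * ((25 / 32) ^ (lj j) * (Fintype.card (Sd k) : ℝ)) := by
        refine add_le_add le_rfl (sum_le_sum fun j _ => sum_le_sum fun s' hs' => ?_)
        exact mul_le_mul_of_nonneg_left (htail j s' hs') (by positivity)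
    _ = (Fintype.card (Sd k) : ℝ) + ∑ j ∈ range J,
          ((F j).card : ℝ) * (2 ^ (j + 1) * (25 / 32) ^ (lj j)) * Fintype.card (Sd k) := by
        congr 1
        refine sum_congr rfl fun j _ => ?_
        rw [sum_const, nsmul_eq_mul]
        ring
    _ ≤ (Fintype.card (Sd k) : ℝ) + ∑ j ∈ range J,
          (241 : ℝ) ^ d * (2 ^ (j + 1) * (25 / 32) ^ (lj j)) * Fintype.card (Sd k) := by
        gcongr with j _
        exact hF2 j
    _ = (Fintype.card (Sd k) : ℝ) + 241 ^ d * (∑ j ∈ range J, (2 : ℝ) ^ (j + 1) * (25 / 32) ^ (lj j)) *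
          Fintype.card (Sd k) := by
        rw [mul_sum, sum_mul]
    _ ≤ (Fintype.card (Sd k) : ℝ) + 241 ^ d * 23000 * Fintype.card (Sd k) := by
        have := sum_num J
        gcongr
    _ ≤ 23001 * 241 ^ d * Fintype.card (Sd k) := by
        have : (1 : ℝ) ≤ 241 ^ d := one_le_pow₀ (by norm_num)
        nlinarith

end Pool.Agent.K4H91.CP
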