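import Mathlib

set_option autoImplicit false

/-! # Convex programs -/

namespace Pool.Agent.K4H91.CP

open Finset

/-- A convex program with `m` constraints for the input variables `w e` (`e : E`) and `p` further
real variables `y j`: the `l`-th constraint says that the `r l` numbers
`c l i + ∑ e, A l e i * w e + ∑ j, B l j i * y j` form a vector in the convex set `K l`. -/
structure ConvexProgram (E : Type) (m : ℕ) where
  p : ℕ
  r : Fin m → ℕ
  K : (l : Fin m) → Set (Fin (r l) → ℝ)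
  convex : ∀ l, Convex ℝ (K l)
  A : (l : Fin m) → E → Fin (r l) → ℝ
  B : (l : Fin m) → Fin p → Fin (r l) → ℝ
  c : (l : Fin m) → Fin (r l) → ℝ

/-- the vector of the `l`-th constraint -/
def ConvexProgram.val {E : Type} [Fintype E] {m : ℕ} (P : ConvexProgram E m) (w : E → ℝ)
    (y : Fin P.p → ℝ) (l : Fin m) : Fin (P.r l) → ℝ :=
  fun i => P.c l i + ∑ e, P.A l e i * w e + ∑ j, P.B l j i * y j

/-- The program accepts the input `w` if it is feasible for this input. -/
def ConvexProgram.Accepts {E : Type} [Fintype E] {m : ℕ} (P : ConvexProgram E m) (w : E → ℝ) :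
    Prop :=
  ∃ y : Fin P.p → ℝ, ∀ l, P.val w y l ∈ P.K l

theorem dual_expand {m : ℕ} {r : Fin m → ℕ} (f : ((l : Fin m) → Fin (r l) → ℝ) →ₗ[ℝ] ℝ)
    (x : (l : Fin m) → Fin (r l) → ℝ) :
    f x = ∑ l, ∑ a, f (Pi.single l (Pi.single a 1)) * x l a := by
  classical
  have h1 : x = ∑ l, Pi.single l (x l) := (Finset.univ_sum_single x).symm
  conv_lhs => rw [h1]
  rw [map_sum]
  refine sum_congr rfl fun l _ => ?_
  have h2 : (Pi.single l (x l) : (l : Fin m) → Fin (r l) → ℝ) =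
      ∑ a, x l a • (Pi.single l (Pi.single a 1) : (l : Fin m) → Fin (r l) → ℝ) := by
    have h3 : x l = ∑ a, x l a • (Pi.single a (1 : ℝ) : Fin (r l) → ℝ) := by
      ext b
      simp [Finset.sum_apply, Pi.single_apply]
    ext l' b
    by_cases hl : l' = l
    · subst hl
      simp only [Pi.single_eq_same, Finset.sum_apply, Pi.smul_apply]
      conv_lhs => rw [h3]
      simp [Finset.sum_apply]
    · simp [Pi.single_eq_of_ne hl, Finset.sum_apply]
  rw [h2, map_sum]
  refine sum_congr rfl fun a _ => ?_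
  rw [map_smul, smul_eq_mul, mul_comm]

/-- Separation of a rejected input from finitely many accepted inputs. -/
theorem sep {E : Type} [Fintype E] {m : ℕ} (P : ConvexProgram E m) {ι : Type} [Fintype ι]
    [Nonempty ι] (x : ι → E → ℝ) (y : ι → Fin P.p → ℝ)
    (hxy : ∀ i l, P.val (x i) (y i) l ∈ P.K l) (q : E → ℝ) (hq : ¬ P.Accepts q) (R : ℝ)
    (hR : 0 ≤ R) :
    ∃ (f : (l : Fin m) → Fin (P.r l) → ℝ) (β : Fin m → ℝ) (g : Fin P.p → ℝ) (φ0 : ℝ)
      (φ : E → ℝ),
      (∀ i l, β l ≤ ∑ a, f l a * P.val (x i) (y i) l a) ∧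
      (∀ w z, ∑ l, (∑ a, f l a * P.val w z l a - β l) =
        φ0 + ∑ e, φ e * w e + ∑ j, g j * z j) ∧
      φ0 + ∑ e, φ e * q e + R * ∑ j, |g j| < 0 := by
  classical
  -- the compact set
  obtain ⟨box, hbox⟩ : ∃ box : Set (Fin P.p → ℝ), box = Set.pi Set.univ fun _ => Set.Icc (-R) R :=
    ⟨_, rfl⟩
  obtain ⟨D, hD⟩ : ∃ D : Set ((l : Fin m) → Fin (P.r l) → ℝ), D = (fun z => P.val q z) '' box :=
    ⟨_, rfl⟩
  obtain ⟨K', hK'⟩ : ∃ K' : Set ((l : Fin m) → Fin (P.r l) → ℝ), K' = Set.pi Set.univ fun l =>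
      convexHull ℝ (Set.range fun i => P.val (x i) (y i) l) := ⟨_, rfl⟩
  have hDcomp : IsCompact D := by
    rw [hD, hbox]
    refine (isCompact_univ_pi fun _ => isCompact_Icc).image ?_
    unfold ConvexProgram.val
    fun_prop
  have hDconv : Convex ℝ D := by
    have hbc : Convex ℝ box := by
      rw [hbox]
      exact convex_pi fun _ _ => convex_Icc _ _
    rw [hD]
    rintro _ ⟨z1, hz1, rfl⟩ _ ⟨z2, hz2, rfl⟩ a b ha hb hab
    refine ⟨a • z1 + b • z2, hbc hz1 hz2 ha hb hab, ?_⟩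
    ext l i
    simp only [ConvexProgram.val, Pi.add_apply, Pi.smul_apply, smul_eq_mul]
    have e1 : ∑ j, P.B l j i * (a * z1 j + b * z2 j) =
        a * ∑ j, P.B l j i * z1 j + b * ∑ j, P.B l j i * z2 j := by
      rw [mul_sum, mul_sum, ← sum_add_distrib]
      exact sum_congr rfl fun j _ => by ring
    rw [e1]
    have hb' : b = 1 - a := by linarith
    subst hb'
    ring
  have hKclosed : IsClosed K' := by
    rw [hK']
    refine isClosed_set_pi fun l _ => ?_
    exact (Set.finite_range _).isClosed_convexHull ℝ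
  have hKconv : Convex ℝ K' := by
    rw [hK']
    exact convex_pi fun l _ => convex_convexHull ℝ _
  have hdisj : Disjoint D K' := by
    rw [Set.disjoint_left]
    rintro d hd hk
    rw [hD] at hd
    obtain ⟨z, -, rfl⟩ := hd
    refine hq ⟨z, fun l => ?_⟩
    rw [hK'] at hk
    have h1 := hk l (Set.mem_univ _)
    refine convexHull_min ?_ (P.convex l) h1
    rintro _ ⟨i, rfl⟩
    exact hxy i l
  obtain ⟨F, u, v, h1, h2, h3⟩ := geometric_hahn_banach_compact_closed hDconv hDcomp hKconv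
    hKclosed hdisj
  obtain ⟨f, hf⟩ : ∃ f : (l : Fin m) → Fin (P.r l) → ℝ, ∀ l a,
      f l a = F (Pi.single l (Pi.single a 1)) := ⟨_, fun _ _ => rfl⟩
  have hF : ∀ k : (l : Fin m) → Fin (P.r l) → ℝ, F k = ∑ l, ∑ a, f l a * k l a := by
    intro k
    have := dual_expand (F : ((l : Fin m) → Fin (P.r l) → ℝ) →ₗ[ℝ] ℝ) k
    simp only [hf]
    exact this
  have hmin : ∀ l, ∃ i0 : ι, ∀ i, ∑ a, f l a * P.val (x i0) (y i0) l a ≤
      ∑ a, f l a * P.val (x i) (y i) l a := by
    intro l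
    obtain ⟨i0, -, hi0⟩ := exists_min_image (univ : Finset ι)
      (fun i => ∑ a, f l a * P.val (x i) (y i) l a) univ_nonempty
    exact ⟨i0, fun i => hi0 i (mem_univ _)⟩
  choose i0 hi0 using hmin
  obtain ⟨β, hβ⟩ : ∃ β : Fin m → ℝ, ∀ l, β l = ∑ a, f l a * P.val (x (i0 l)) (y (i0 l)) l a :=
    ⟨_, fun _ => rfl⟩
  have hβv : v < ∑ l, β l := by
    have h4 := h3 (fun l => P.val (x (i0 l)) (y (i0 l)) l) (by
      rw [hK']
      intro l _
      exact subset_convexHull ℝ _ ⟨i0 l, rfl⟩)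
    rw [hF] at h4
    simp only [hβ]
    exact h4
  obtain ⟨g, hg⟩ : ∃ g : Fin P.p → ℝ, ∀ j, g j = ∑ l, ∑ a, f l a * P.B l j a := ⟨_, fun _ => rfl⟩
  obtain ⟨φ, hφ⟩ : ∃ φ : E → ℝ, ∀ e, φ e = ∑ l, ∑ a, f l a * P.A l e a := ⟨_, fun _ => rfl⟩
  obtain ⟨φ0, hφ0⟩ : ∃ φ0 : ℝ, φ0 = ∑ l, (∑ a, f l a * P.c l a - β l) := ⟨_, rfl⟩
  have hid : ∀ w z, ∑ l, (∑ a, f l a * P.val w z l a - β l) =
      φ0 + ∑ e, φ e * w e + ∑ j, g j * z j := by
    intro w z
    have e1 : ∑ e, φ e * w e = ∑ l, ∑ a, f l a * ∑ e, P.A l e a * w e := by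
      simp_rw [hφ, sum_mul, mul_sum]
      rw [sum_comm]
      refine sum_congr rfl fun l _ => ?_
      rw [sum_comm]
      exact sum_congr rfl fun a _ => sum_congr rfl fun e _ => by ring
    have e2 : ∑ j, g j * z j = ∑ l, ∑ a, f l a * ∑ j, P.B l j a * z j := by
      simp_rw [hg, sum_mul, mul_sum]
      rw [sum_comm]
      refine sum_congr rfl fun l _ => ?_
      rw [sum_comm]
      exact sum_congr rfl fun a _ => sum_congr rfl fun e _ => by ring
    rw [e1, e2, hφ0, ← sum_add_distrib, ← sum_add_distrib]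
    refine sum_congr rfl fun l _ => ?_
    simp only [ConvexProgram.val, mul_add, sum_add_distrib]
    ring
  refine ⟨f, β, g, φ0, φ, fun i l => ?_, hid, ?_⟩
  · rw [hβ]
    exact hi0 l i
  · obtain ⟨z, hz⟩ : ∃ z : Fin P.p → ℝ, ∀ j, z j = if 0 ≤ g j then R else -R :=
      ⟨_, fun _ => rfl⟩
    have hzb : z ∈ box := by
      rw [hbox]
      intro j _
      rw [hz, Set.mem_Icc]
      split_ifs
      · exact ⟨by linarith, le_rfl⟩
      · exact ⟨le_rfl, by linarith⟩
    have h5 := h1 _ (by rw [hD]; exact ⟨z, hzb, rfl⟩)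
    rw [hF] at h5
    have h6 := hid q z
    rw [sum_sub_distrib] at h6
    have h7 : ∑ j, g j * z j = R * ∑ j, |g j| := by
      rw [mul_sum]
      refine sum_congr rfl fun j _ => ?_
      rw [hz]
      split_ifs with h
      · rw [abs_of_nonneg h]; ring
      · rw [abs_of_neg (not_le.1 h)]; ring
    rw [h7] at h6
    linarith

end Pool.Agent.K4H91.CP
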