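import Pool.Agent.TH697.Apsp.Final
import Pool.Agent.K4H91.CP.Block
import Pool.Agent.K4H91.CP.Prog

set_option autoImplicit false

/-! # The lower bound for convex programs -/

namespace Pool.Agent.K4H91.CP

open Finset Pool.Agent.TH697.Apsp

section

variable {n k r : ℕ} (e : Fin n ≃ Vt k r) (φ0 : ℝ) (φ : Fin n × Fin n → ℝ)

/-- the value of an affine functional in a point -/
noncomputable def ev (p : Pt k) : ℝ := φ0 + ∑ x : Fin n × Fin n, φ x * (p.W e x.1 x.2 : ℝ)

theorem ev_rel (ρ : ℝ) (A B C D E F : Pt k)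
    (h : ∀ u v : Vt k r, (A.w u v : ℝ) + B.w u v + ρ * ((C.w u v : ℝ) - D.w u v) =
      E.w u v + F.w u v) :
    ev e φ0 φ A + ev e φ0 φ B + ρ * (ev e φ0 φ C - ev e φ0 φ D) =
      ev e φ0 φ E + ev e φ0 φ F := by
  unfold ev
  have h1 : (∑ x : Fin n × Fin n, φ x * (A.W e x.1 x.2 : ℝ)) +
      (∑ x : Fin n × Fin n, φ x * (B.W e x.1 x.2 : ℝ)) +
      ρ * ((∑ x : Fin n × Fin n, φ x * (C.W e x.1 x.2 : ℝ)) -
        ∑ x : Fin n × Fin n, φ x * (D.W e x.1 x.2 : ℝ)) =
      (∑ x : Fin n × Fin n, φ x * (E.W e x.1 x.2 : ℝ)) +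
      (∑ x : Fin n × Fin n, φ x * (F.W e x.1 x.2 : ℝ)) := by
    rw [← sum_add_distrib, ← sum_sub_distrib, mul_sum, ← sum_add_distrib, ← sum_add_distrib]
    refine sum_congr rfl fun x _ => ?_
    have := h (e x.1) (e x.2)
    simp only [Pt.W]
    linear_combination (φ x) * this
  linear_combination h1

end

theorem lower_core {n m k r : ℕ} (e : Fin n ≃ Vt k r) (P : ConvexProgram (Fin n × Fin n) m)
    (hacc : ∀ w : Fin n → Fin n → ℕ, IsWeights n 900 w → (∀ u v, dist w u v = w u v) →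
      P.Accepts (fun x => (w x.1 x.2 : ℝ)))
    (hrej : ∀ w : Fin n → Fin n → ℕ, IsWeights n 900 w →
      (∃ u v, 1001 * dist w u v < 1000 * w u v) → ¬ P.Accepts (fun x => (w x.1 x.2 : ℝ))) :
    k ^ 3 ≤ 43100000 * ∑ l, 241 ^ (P.r l) := by
  classical
  -- the accepted inputs
  let ι : Type := {w : Fin n → Fin n → Fin 901 //
    IsWeights n 900 (fun u v => (w u v : ℕ)) ∧
      ∀ u v, dist (fun u v => (w u v : ℕ)) u v = (w u v : ℕ)}
  have hex : ∀ i : ι, ∃ y : Fin P.p → ℝ, ∀ l,
      P.val (fun x : Fin n × Fin n => ((i.1 x.1 x.2 : ℕ) : ℝ)) y l ∈ P.K l :=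
    fun i => hacc _ i.2.1 i.2.2
  choose y hy using hex
  have hpt : ∀ p : Pt k, p.Good → ∃ i : ι, ∀ u v, ((i.1 u v : ℕ)) = p.W e u v := by
    intro p hp
    have h9 : ∀ u v, p.W e u v < 901 := by
      intro u v
      have := wt_up (x0 := p.x0) (x1 := p.x1) (x2 := p.x2) (r := r) (fun a b => (hp.h0 a b).2)
        (fun a b => (hp.h1 a b).2) (fun a b => (hp.h2 a b).2) (e u) (e v)
      simp only [Pt.W, Pt.w]
      omega
    refine ⟨⟨fun u v => ⟨p.W e u v, h9 u v⟩, ?_, ?_⟩, fun u v => rfl⟩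
    · exact hp.isWeights e
    · exact hp.dist_eq e
  have : Nonempty ι := ⟨(hpt pD pD_good).choose⟩
  choose! ix hix using hpt
  -- a bound for the additional variables
  obtain ⟨Y, hY⟩ : ∃ Y : ℝ, Y = ∑ i : ι, ∑ j, |y i j| := ⟨_, rfl⟩
  have hY0 : 0 ≤ Y := by rw [hY]; positivity
  have hYle : ∀ i j, |y i j| ≤ Y := by
    intro i j
    rw [hY]
    refine le_trans ?_ (single_le_sum (f := fun i => ∑ j, |y i j|)
      (fun i _ => by positivity) (mem_univ i))
    exact single_le_sum (f := fun j => |y i j|) (fun j _ => abs_nonneg _) (mem_univ j)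
  -- separation
  have hsep : ∀ t : Tr k, _ := fun t => sep P
    (fun (i : ι) (x : Fin n × Fin n) => ((i.1 x.1 x.2 : ℕ) : ℝ)) y hy
    (fun x => (((pV t).W e x.1 x.2 : ℕ) : ℝ)) (hrej _ (pV_isWeights e t) (pV_bad e t))
    (1000 * Y) (by positivity)
  choose f β g φ0 φ hβ hid hneg using hsep
  -- values
  obtain ⟨H, hH⟩ : ∃ H : Tr k → Pt k → ℝ, ∀ t p, H t p = ev e (φ0 t) (φ t) p := ⟨_, fun _ _ => rfl⟩
  obtain ⟨M, hM⟩ : ∃ M : Fin m → Tr k → Pt k → ℝ, ∀ l t p, M l t p =
      ∑ a, f t l a * P.val (fun x : Fin n × Fin n => (((ix p).1 x.1 x.2 : ℕ) : ℝ)) (y (ix p)) l a -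
        β t l := ⟨_, fun _ _ _ => rfl⟩
  have hM0 : ∀ l t p, 0 ≤ M l t p := by
    intro l t p
    rw [hM]
    linarith [hβ t (ix p) l]
  obtain ⟨ε, hε⟩ : ∃ ε : Tr k → ℝ, ∀ t, ε t = - H t (pV t) := ⟨_, fun _ => rfl⟩
  have hεg : ∀ t, 1000 * Y * ∑ j, |g t j| < ε t := by
    intro t
    have := hneg t
    rw [hε, hH]
    unfold ev
    linarith
  have hε0 : ∀ t, 0 < ε t := fun t => lt_of_le_of_lt (by positivity) (hεg t)
  have hdiff : ∀ t p, p.Good → |∑ l, M l t p - H t p| ≤ ε t / 1000 := by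
    intro t p hp
    have h1 : ∑ l, M l t p - H t p = ∑ j, g t j * y (ix p) j := by
      simp only [hM]
      rw [hid, hH]
      unfold ev
      have : ∀ x : Fin n × Fin n, (((ix p).1 x.1 x.2 : ℕ) : ℝ) = (p.W e x.1 x.2 : ℝ) := by
        intro x
        rw [hix p hp]
      simp only [this]
      ring
    rw [h1]
    have h2 : |∑ j, g t j * y (ix p) j| ≤ Y * ∑ j, |g t j| := by
      refine (abs_sum_le_sum_abs _ _).trans ?_
      rw [mul_sum]
      refine sum_le_sum fun j _ => ?_
      rw [abs_mul, mul_comm]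
      exact mul_le_mul_of_nonneg_right (hYle _ _) (abs_nonneg _)
    have h3 := hεg t
    linarith
  have hpos : ∀ t p, p.Good → - (ε t / 1000) ≤ H t p := by
    intro t p hp
    have h1 := (abs_le.1 (hdiff t p hp)).2
    have h2 : 0 ≤ ∑ l, M l t p := sum_nonneg fun l _ => hM0 l t p
    linarith
  obtain ⟨α, hα⟩ : ∃ α : Tr k → ℝ, ∀ t, α t = H t (pQ t) - H t (pV t) := ⟨_, fun _ => rfl⟩
  have hαε : ∀ t, ε t / 1000 ≤ α t / 999 := by
    intro t
    have h1 := hpos t _ (pQ_good t)
    have h2 := hε t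
    have h3 := hα t
    linarith
  have hα0 : ∀ t, 0 < α t := by
    intro t
    have h1 := hαε t
    have h2 := hε0 t
    linarith
  have hQ : ∀ t, H t (pQ t) ≤ α t := by
    intro t
    have h1 := hε t
    have h2 := hε0 t
    have h3 := hα t
    linarith
  -- relations
  have r1 : ∀ t, H t pD ≤ 2 * H t (pQ t) + ε t / 1000 := by
    intro t
    have h := ev_rel e (φ0 t) (φ t) 0 pD (pR t) pD pD (pQ t) (pQ t) (by
      intro u v
      apply Pt.rel
      · intro a b; simp only [pD, pR, pQ]; split_ifs <;> norm_num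
      · intro a b; simp only [pD, pR, pQ]; split_ifs <;> norm_num
      · intro a b; simp only [pD, pR, pQ]; norm_num)
    simp only [← hH] at h
    have := hpos t _ (pR_good t)
    linarith
  have r2 : ∀ t s, H t (pP t s) ≤ 2 * H t (pQ t) + ε t / 1000 := by
    intro t s
    have h := ev_rel e (φ0 t) (φ t) 0 (pP t s) (pM t s) pD pD (pQ t) (pQ t) (by
      intro u v
      apply Pt.rel
      · intro a b; simp only [pP, pM, pQ]; split_ifs <;> norm_num
      · intro a b; simp only [pP, pM, pQ]; split_ifs <;> norm_num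
      · intro a b; simp only [pP, pM, pQ]; split_ifs <;> norm_num)
    simp only [← hH] at h
    have := hpos t _ (pM_good t s)
    linarith
  have r3 : ∀ t s, H t (pC s) = H t (pP t s) + H t pD -
      H t (pQ t) + (if One t s then (100 : ℝ) else 0) * α t := by
    intro t s
    have h := ev_rel e (φ0 t) (φ t) (if One t s then (100 : ℝ) else 0) (pC s) (pQ t) (pV t) (pQ t)
      (pP t s) pD (by
      intro u v
      apply Pt.rel
      · intro a b; simp only [pC, pV, pP, pD, pQ]; split_ifs <;> norm_num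
      · intro a b; simp only [pC, pV, pP, pD, pQ]; split_ifs <;> norm_num
      · intro a b; simp only [pC, pV, pP, pD, pQ]; split_ifs <;> norm_num)
    simp only [← hH] at h
    rw [hα]
    linarith
  have hzero : ∀ t s, ¬ One t s → ∑ l, M l t (pC s) ≤ 3.01 * α t := by
    intro t s h
    have h0 := r3 t s
    rw [if_neg h] at h0
    have h1 := (abs_le.1 (hdiff t _ (pC_good s))).2
    linarith [r1 t, r2 t s, hQ t, hαε t, hα0 t]
  have hone : ∀ t s, One t s → 98.99 * α t ≤ ∑ l, M l t (pC s) := by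
    intro t s h
    have h0 := r3 t s
    rw [if_pos h] at h0
    have h1 := (abs_le.1 (hdiff t _ (pC_good s))).1
    linarith [hpos t _ (pP_good t s), hpos t _ (pD_good (k := k)), hQ t, hαε t, hα0 t]
  have hup : ∀ t s, ∑ l, M l t (pC s) ≤ 104 * α t := by
    intro t s
    by_cases h : One t s
    · have h0 := r3 t s
      rw [if_pos h] at h0
      have h1 := (abs_le.1 (hdiff t _ (pC_good s))).2
      linarith [r1 t, r2 t s, hQ t, hαε t, hα0 t]
    · linarith [hzero t s h, hα0 t]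
  -- the matrices
  have hc0 : (0 : ℝ) < Fintype.card (Sd k) := by
    exact_mod_cast Fintype.card_pos
  have hblock : ∀ l, ∑ t : Tr k, ∑ s : Sd k, (M l t (pC s) / (104 * α t)) *
      (6 * (if One t s then (1 : ℝ) else 0) - 5) ≤
      23001 * 241 ^ (P.r l + 1) * Fintype.card (Sd k) := by
    intro l
    refine block (P.r l + 1) (fun t s => M l t (pC s) / (104 * α t))
      (Fin.snoc (α := fun _ => Tr k → ℝ) (fun a t => f t l a / (104 * α t))
        (fun t => - β t l / (104 * α t)))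
      (fun s => Fin.snoc (α := fun _ => ℝ) (fun a => P.val (fun x : Fin n × Fin n =>
        (((ix (pC s)).1 x.1 x.2 : ℕ) : ℝ)) (y (ix (pC s))) l a) 1) ?_ ?_ ?_
    · intro t s
      rw [Fin.sum_univ_castSucc]
      simp only [Fin.snoc_castSucc, Fin.snoc_last, hM]
      rw [sub_div, sum_div]
      have : ∑ i, f t l i * P.val (fun x : Fin n × Fin n =>
          (((ix (pC s)).1 x.1 x.2 : ℕ) : ℝ)) (y (ix (pC s))) l i / (104 * α t) =
          ∑ i, P.val (fun x : Fin n × Fin n =>
          (((ix (pC s)).1 x.1 x.2 : ℕ) : ℝ)) (y (ix (pC s))) l i * (f t l i / (104 * α t)) :=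
        sum_congr rfl fun i _ => by ring
      rw [this]
      ring
    · intro t s
      exact div_nonneg (hM0 l t _) (by have := hα0 t; positivity)
    · intro t s
      rw [div_le_one (by have := hα0 t; positivity)]
      refine le_trans ?_ (hup t s)
      exact single_le_sum (f := fun l => M l t (pC s)) (fun l' _ => hM0 l' t _) (mem_univ l)
  have hupper : ∑ t : Tr k, ∑ s : Sd k, (∑ l, M l t (pC s)) / (104 * α t) *
      (6 * (if One t s then (1 : ℝ) else 0) - 5) ≤
      ∑ l, 23001 * 241 ^ (P.r l + 1) * (Fintype.card (Sd k) : ℝ) := by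
    have e1 : ∑ t : Tr k, ∑ s : Sd k, (∑ l, M l t (pC s)) / (104 * α t) *
        (6 * (if One t s then (1 : ℝ) else 0) - 5) =
        ∑ l : Fin m, ∑ t : Tr k, ∑ s : Sd k, (M l t (pC s) / (104 * α t)) *
          (6 * (if One t s then (1 : ℝ) else 0) - 5) := by
      rw [sum_comm' (s := (univ : Finset (Fin m))) (t := fun _ => (univ : Finset (Tr k)))
        (t' := univ) (s' := fun _ => univ) (by simp)]
      refine sum_congr rfl fun t _ => ?_
      rw [sum_comm]
      refine sum_congr rfl fun s _ => ?_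
      rw [sum_div, sum_mul]
    rw [e1]
    exact sum_le_sum fun l _ => hblock l
  have hlower : (k : ℝ) ^ 3 * (13.4 / 104 * Fintype.card (Sd k)) ≤
      ∑ t : Tr k, ∑ s : Sd k, (∑ l, M l t (pC s)) / (104 * α t) *
      (6 * (if One t s then (1 : ℝ) else 0) - 5) := by
    have h1 : ∀ t : Tr k, 13.4 / 104 * (Fintype.card (Sd k) : ℝ) ≤
        ∑ s : Sd k, (∑ l, M l t (pC s)) / (104 * α t) *
          (6 * (if One t s then (1 : ℝ) else 0) - 5) := by
      intro t
      have h2 : ∀ s, (114.04 * (if One t s then (1 : ℝ) else 0) - 15.05) / 104 ≤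
          (∑ l, M l t (pC s)) / (104 * α t) * (6 * (if One t s then (1 : ℝ) else 0) - 5) := by
        intro s
        have hα := hα0 t
        by_cases h : One t s
        · rw [if_pos h]
          have h3 := hone t s h
          rw [← le_div_iff₀ hα] at h3
          have h4 : (∑ l, M l t (pC s)) / (104 * α t) = (∑ l, M l t (pC s)) / α t / 104 := by
            rw [div_div, mul_comm]
          rw [h4]
          linarith
        · rw [if_neg h]
          have h3 := hzero t s h
          rw [← div_le_iff₀ hα] at h3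
          have h4 : (∑ l, M l t (pC s)) / (104 * α t) = (∑ l, M l t (pC s)) / α t / 104 := by
            rw [div_div, mul_comm]
          rw [h4]
          linarith
      have h3 := sum_le_sum fun s (_ : s ∈ (univ : Finset (Sd k))) => h2 s
      rw [← sum_div, sum_sub_distrib, ← mul_sum, sum_const, card_univ, nsmul_eq_mul] at h3
      have h4 := sum_one t
      refine le_trans ?_ h3
      rw [div_mul_eq_mul_div]
      refine div_le_div_of_nonneg_right ?_ (by norm_num)
      linarith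
    have h5 := sum_le_sum fun t (_ : t ∈ (univ : Finset (Tr k))) => h1 t
    rw [sum_const, card_univ, nsmul_eq_mul] at h5
    have h6 : ((Fintype.card (Tr k) : ℕ) : ℝ) = (k : ℝ) ^ 3 := by
      simp [Tr]
      ring
    rw [h6] at h5
    exact h5
  have h7 : (k : ℝ) ^ 3 * (13.4 / 104) * Fintype.card (Sd k) ≤
      (∑ l, 23001 * 241 ^ (P.r l + 1)) * Fintype.card (Sd k) := by
    calc _ = (k : ℝ) ^ 3 * (13.4 / 104 * Fintype.card (Sd k)) := by ring
      _ ≤ _ := hlower.trans hupper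
      _ = _ := by rw [sum_mul]
  have h8 := le_of_mul_le_mul_right h7 hc0
  have h8' : (∑ l, 23001 * (241 : ℝ) ^ (P.r l + 1)) = 5543241 * ∑ l, (241 : ℝ) ^ (P.r l) := by
    rw [mul_sum]
    refine sum_congr rfl fun l _ => ?_
    rw [pow_succ]
    ring
  rw [h8'] at h8
  have hs0 : (0 : ℝ) ≤ ∑ l, (241 : ℝ) ^ (P.r l) := by positivity
  have h9 : (k : ℝ) ^ 3 ≤ 43100000 * ∑ l, (241 : ℝ) ^ (P.r l) := by
    nlinarith
  exact_mod_cast h9

theorem lower {n m : ℕ} (hn : 3 ≤ n) (P : ConvexProgram (Fin n × Fin n) m)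
    (hacc : ∀ w : Fin n → Fin n → ℕ, IsWeights n 900 w → (∀ u v, dist w u v = w u v) →
      P.Accepts (fun x => (w x.1 x.2 : ℝ)))
    (hrej : ∀ w : Fin n → Fin n → ℕ, IsWeights n 900 w →
      (∃ u v, 1001 * dist w u v < 1000 * w u v) → ¬ P.Accepts (fun x => (w x.1 x.2 : ℝ))) :
    n ^ 3 ≤ 5400000000 * ∑ l, 241 ^ (P.r l) := by
  obtain ⟨k, hk⟩ : ∃ k, k = n / 3 := ⟨_, rfl⟩
  obtain ⟨r, hr⟩ : ∃ r, n = (k + k) + (k + r) := ⟨n - 3 * k, by omega⟩
  have e : Fin n ≃ Vt k r := by
    refine (finCongr hr).trans ?_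
    exact (finSumFinEquiv.symm).trans (Equiv.sumCongr finSumFinEquiv.symm finSumFinEquiv.symm)
  have h1 := lower_core e P hacc hrej
  have h2 : n ≤ 5 * k := by omega
  calc n ^ 3 ≤ (5 * k) ^ 3 := Nat.pow_le_pow_left h2 3
    _ = 125 * k ^ 3 := by ring
    _ ≤ 125 * (43100000 * ∑ l, 241 ^ (P.r l)) := Nat.mul_le_mul_left _ h1
    _ ≤ _ := by
        rw [← mul_assoc]
        exact Nat.mul_le_mul_right _ (by norm_num)

end Pool.Agent.K4H91.CP
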